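import Mathlib
import Pool.Agent.Helper320.GFinG

set_option autoImplicit false

namespace Pool.Agent.Results.MP_4b2a3d_gt.Goldberg

/-- a convex polyhedron: the convex hull of finitely many points of three-space, with an interior
point -/
def IsPolyhedron (P : Set (EuclideanSpace ℝ (Fin 3))) : Prop :=
  (interior P).Nonempty ∧
    ∃ V : Finset (EuclideanSpace ℝ (Fin 3)), P = convexHull ℝ (V : Set (EuclideanSpace ℝ (Fin 3)))

/-- `F` is a face of `P` of dimension `d` -/
def IsFace (P : Set (EuclideanSpace ℝ (Fin 3))) (d : ℕ) (F : Set (EuclideanSpace ℝ (Fin 3))) :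
    Prop :=
  F.Nonempty ∧ IsExposed ℝ P F ∧ Module.finrank ℝ (vectorSpan ℝ F) = d

/-- the number of (two-dimensional) faces -/
noncomputable def numFaces (P : Set (EuclideanSpace ℝ (Fin 3))) : ℕ :=
  {F : Set (EuclideanSpace ℝ (Fin 3)) | IsFace P 2 F}.ncard

/-- every vertex lies on exactly three edges -/
def IsSimple (P : Set (EuclideanSpace ℝ (Fin 3))) : Prop :=
  ∀ v : EuclideanSpace ℝ (Fin 3), IsFace P 0 {v} →
    {E : Set (EuclideanSpace ℝ (Fin 3)) | IsFace P 1 E ∧ v ∈ E}.ncard = 3

/-- the number of sides (edges) of the face `F` of `P` -/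
noncomputable def sides (P F : Set (EuclideanSpace ℝ (Fin 3))) : ℕ :=
  {E : Set (EuclideanSpace ℝ (Fin 3)) | IsFace P 1 E ∧ E ⊆ F}.ncard

/-- medial polyhedra with `f` faces -/
def IsMedial (P : Set (EuclideanSpace ℝ (Fin 3))) (f : ℕ) : Prop :=
  numFaces P = f ∧ IsSimple P ∧ ∀ F : Set (EuclideanSpace ℝ (Fin 3)), IsFace P 2 F →
    sides P F = ⌊(6 : ℝ) - 12 / f⌋₊ ∨ sides P F = ⌊(6 : ℝ) - 12 / f⌋₊ + 1

/-- surface area: the two-dimensional Hausdorff measure of the boundary -/
noncomputable def surface (P : Set (EuclideanSpace ℝ (Fin 3))) : ℝ :=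
  (MeasureTheory.Measure.hausdorffMeasure 2 (frontier P)).toReal

/-- the isoperimetric quotient -/
noncomputable def quot (P : Set (EuclideanSpace ℝ (Fin 3))) : ℝ :=
  surface P ^ 3 / (MeasureTheory.volume P).toReal ^ 2

/-- Goldberg's conjecture fails for all large numbers of faces: no medial polyhedron minimises the
isoperimetric quotient among the polyhedra with the same number of faces. -/
theorem result : ∃ N : ℕ, ∀ f : ℕ, N ≤ f → ∀ P : Set (EuclideanSpace ℝ (Fin 3)),
    IsPolyhedron P → IsMedial P f →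
      ∃ Q : Set (EuclideanSpace ℝ (Fin 3)), IsPolyhedron Q ∧ numFaces Q = f ∧ quot Q < quot P :=
  Pool.Agent.Helper320.Gold.NFinG.main

end Pool.Agent.Results.MP_4b2a3d_gt.Goldberg
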